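import Pool.Agent.Lib.MP_b5021c_nt.IfaceK1

/-!
# Row SAL: Salem's theorem, the set of Pisot numbers is closed
-/

namespace Pool.Agent.MP_b5021c_nt.H06

open Polynomial Filter Topology

/-- The reversed polynomial has the same modulus on the unit circle. -/
theorem norm_pv_reverse (μ : ℤ[X]) {z : ℂ} (hz : ‖z‖ = 1) : ‖pv μ.reverse z‖ = ‖pv μ z‖ := by
  have hz0 : z ≠ 0 := by
    intro h
    rw [h, norm_zero] at hz
    exact zero_ne_one hz
  have hinv : (starRingEnd ℂ) z = z⁻¹ := (Complex.inv_eq_conj hz).symm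
  have hconj : pv μ z⁻¹ = (starRingEnd ℂ) (pv μ z) := by
    rw [← hinv]
    unfold pv
    rw [aeval_def, aeval_def, hom_eval₂]
    congr 1
    exact Subsingleton.elim _ _
  let u : ℂˣ := Units.mk0 z hz0
  have : Invertible (z⁻¹) := invertibleOfNonzero (inv_ne_zero hz0)
  have h1 : pv μ.reverse z * (z⁻¹) ^ μ.natDegree = pv μ z⁻¹ := by
    have h2 := eval₂_reverse_mul_pow (algebraMap ℤ ℂ) (z⁻¹) μ
    have h3 : (⅟(z⁻¹) : ℂ) = z := by rw [invOf_eq_inv, inv_inv]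
    rw [h3] at h2
    exact h2
  have h4 : ‖pv μ.reverse z * (z⁻¹) ^ μ.natDegree‖ = ‖pv μ z‖ := by
    rw [h1, hconj, RCLike.norm_conj]
  rw [norm_mul, norm_pow, norm_inv, hz, inv_one, one_pow, mul_one] at h4
  exact h4

/-- Existence of the quotient sequence. -/
theorem exists_isQuot {Y Q : ℤ[X]} (hQ : Q.coeff 0 = 1) : ∃ a : ℕ → ℤ, IsQuot a Y Q := by
  have h1 : PowerSeries.constantCoeff (Q : PowerSeries ℤ) = ((1 : ℤˣ) : ℤ) := by
    rw [← PowerSeries.coeff_zero_eq_constantCoeff_apply, Polynomial.coeff_coe, hQ]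
    rfl
  refine ⟨fun j => PowerSeries.coeff j ((Y : PowerSeries ℤ) *
    PowerSeries.invOfUnit (Q : PowerSeries ℤ) 1), ?_⟩
  unfold IsQuot
  have h2 : PowerSeries.mk (fun j => PowerSeries.coeff j ((Y : PowerSeries ℤ) *
      PowerSeries.invOfUnit (Q : PowerSeries ℤ) 1)) =
      (Y : PowerSeries ℤ) * PowerSeries.invOfUnit (Q : PowerSeries ℤ) 1 := by
    ext j
    rw [PowerSeries.coeff_mk]
  rw [h2, mul_assoc, mul_comm (PowerSeries.invOfUnit _ _), PowerSeries.mul_invOfUnit _ _ h1, mul_one]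

/-- First coefficient of the quotient. -/
theorem isQuot_zero {a : ℕ → ℤ} {Y Q : ℤ[X]} (hQ : Q.coeff 0 = 1) (h : IsQuot a Y Q) :
    a 0 = Y.coeff 0 := by
  have h1 := congrArg (PowerSeries.coeff 0) h
  rw [PowerSeries.coeff_zero_eq_constantCoeff_apply, map_mul,
    ← PowerSeries.coeff_zero_eq_constantCoeff_apply, PowerSeries.coeff_mk,
    ← PowerSeries.coeff_zero_eq_constantCoeff_apply, Polynomial.coeff_coe, hQ, mul_one,
    Polynomial.coeff_coe] at h1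
  exact h1

/-- The constant term of the minimal polynomial. -/
theorem coeff_zero_minpoly_ne {t : ℝ} (hi : IsIntegral ℤ t) (ht : t ≠ 0) :
    (minpoly ℤ t).coeff 0 ≠ 0 := by
  have h1 := minpoly.isIntegrallyClosed_eq_field_fractions' ℚ hi
  have h2 := minpoly.coeff_zero_ne_zero (A := ℚ) (x := t) (hi.tower_top) ht
  rw [h1, coeff_map] at h2
  intro h3
  rw [h3, map_zero] at h2
  exact h2 rfl

/-- An integer sequence of `ℓ²` norm at most one with non-zero `b 0`. -/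
theorem small {b : ℕ → ℤ} (h0 : b 0 ≠ 0) (hs : Summable fun j => (b j : ℝ) ^ 2)
    (h1 : ∑' j, (b j : ℝ) ^ 2 ≤ 1) :
    ∑' j, (b j : ℝ) ^ 2 = 1 ∧ ∀ j, j ≠ 0 → b j = 0 := by
  have hb0 : (1 : ℝ) ≤ (b 0 : ℝ) ^ 2 := by
    have h2 : (1 : ℤ) ≤ b 0 ^ 2 := by
      have := pow_pos (abs_pos.mpr h0) 2
      rw [sq_abs] at this
      omega
    exact_mod_cast h2
  have h3 : (b 0 : ℝ) ^ 2 ≤ ∑' j, (b j : ℝ) ^ 2 := hs.le_tsum 0 fun j _ => sq_nonneg _
  refine ⟨le_antisymm h1 (hb0.trans h3), fun j hj => ?_⟩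
  have h4 := hs.sum_le_tsum ({0, j} : Finset ℕ) fun i _ => sq_nonneg _
  rw [Finset.sum_pair hj.symm] at h4
  have h5 : (b j : ℝ) ^ 2 ≤ 0 := by linarith
  have h6 : (b j : ℝ) = 0 := by
    have := le_antisymm h5 (sq_nonneg _)
    exact pow_eq_zero_iff (two_ne_zero) |>.mp this
  exact_mod_cast h6

theorem sal (psq : PsqS) (rec : RecS) (buo : BuoS) (bou : BouS) (bpl : BplS) (bp1 : Bp1S)
    (iso : IsoS) (sub : SubS) (pis : PisS) : SalS := by
  intro θ hθ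
  have hacc : AccPt θ (𝓟 PS) := hθ
  rw [accPt_iff_frequently] at hacc
  set F : Set ℝ := {t : ℝ | t ∈ PS ∧ t ≤ θ + 1 ∧ pv (minpoly ℤ t) ((t : ℂ)⁻¹) = 0} with hF
  have hfin : F.Finite := rec (θ + 1)
  have hnear : ∀ᶠ y in 𝓝 θ, (y ≠ θ → y ∉ F) ∧ y ≤ θ + 1 := by
    have h1 : (F \ {θ})ᶜ ∈ 𝓝 θ := by
      refine (hfin.subset Set.sdiff_subset).isClosed.isOpen_compl.mem_nhds ?_
      intro h
      exact h.2 rfl
    have h2 : Set.Iic (θ + 1) ∈ 𝓝 θ := Iic_mem_nhds (by linarith)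
    filter_upwards [h1, h2] with y hy1 hy2
    exact ⟨fun hne hyF => hy1 ⟨hyF, hne⟩, hy2⟩
  have hfreq : ∃ᶠ y in 𝓝 θ, y ∈ PS ∧ y ∉ F ∧ y ≤ θ + 1 := by
    refine (hacc.and_eventually hnear).mono ?_
    rintro y ⟨⟨hne, hPS⟩, h1, h2⟩
    exact ⟨hPS, h1 hne, h2⟩
  obtain ⟨t, htt, ht⟩ := exists_seq_forall_of_frequently hfreq
  have hone : ∀ n, OneZero (minpoly ℤ (t n)).reverse (t n) := fun n => psq _ (ht n).1
  choose a ha using fun n => exists_isQuot (Y := minpoly ℤ (t n)) (hone n).2.1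
  have hbu : ∀ n, ∃ c h, BU (a n) c (t n) h := fun n =>
    buo _ _ _ _ (hone n) (ha n) fun z hz => (norm_pv_reverse _ hz).symm
  choose c h hbu using hbu
  have hbp : ∀ n, BP (a n) (c n) (t n) (h n) := fun n =>
    ⟨(hbu n).1, (hbu n).2.1, (hbu n).2.2.1, (hbu n).2.2.2.le⟩
  have ht1 : ∀ n, 1 < t n := fun n => (hbu n).1
  have hθ1 : 1 ≤ θ := ge_of_tendsto' htt fun n => (ht1 n).le
  -- subsequence
  have hbd : ∀ n (i : Unit) j, |a n j| ≤ ((⌈(θ + 1) ^ (j + 1) + 1⌉₊ : ℕ) : ℤ) := by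
    intro n i j
    have h1 := bou _ _ _ _ (hbp n) j
    have h2 : (t n) ^ (j + 1) ≤ (θ + 1) ^ (j + 1) :=
      pow_le_pow_left₀ (by linarith [ht1 n]) (ht n).2.2 _
    have h3 := Nat.le_ceil ((θ + 1) ^ (j + 1) + 1)
    have h4 : |(a n j : ℝ)| ≤ ((⌈(θ + 1) ^ (j + 1) + 1⌉₊ : ℕ) : ℝ) := by linarith
    exact_mod_cast h4
  obtain ⟨φ, b, hφ, hab⟩ := sub Unit (fun n _ => a n) (fun j => ⌈(θ + 1) ^ (j + 1) + 1⌉₊) hbd
  have hab' : ∀ j, ∀ᶠ n in atTop, a (φ n) j = b () j := fun j => hab () j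
  have hφt : Tendsto (fun n => t (φ n)) atTop (𝓝 θ) := htt.comp hφ.tendsto_atTop
  -- `b 0` is not zero
  have hb0 : b () 0 ≠ 0 := by
    obtain ⟨n, hn⟩ := (hab' 0).exists
    rw [← hn, isQuot_zero (hone _).2.1 (ha _)]
    exact coeff_zero_minpoly_ne (ht _).1.2.1 (by have := ht1 (φ n); positivity)
  -- the limit is a Pisot number or the limit sequence is small
  have key : θ ∈ PS ∨ (Summable (fun j => (b () j : ℝ) ^ 2) ∧ ∑' j, (b () j : ℝ) ^ 2 ≤ 1) := by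
    rcases hθ1.lt_or_eq with h1 | h1
    · obtain ⟨c', h', hlim⟩ := bpl (fun n => a (φ n)) (fun n => c (φ n)) (fun n => t (φ n))
        (fun n => h (φ n)) (b ()) θ (fun n => hbp _) hφt h1 hab'
      by_cases hc : c' = 0
      · right
        obtain ⟨-, h2, h3, h4⟩ := hlim
        have h5 : (fun j => (b () j : ℝ) ^ 2) = fun j => h' j ^ 2 := by
          funext j
          rw [h2 j, hc, zero_mul, zero_add]
        rw [h5]
        refine ⟨h3, ?_⟩
        rw [hc] at h4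
        simpa using h4
      · left
        exact pis _ _ _ _ h1 hc hlim.2.1 hlim.2.2.1
    · right
      refine bp1 (fun n => a (φ n)) (fun n => c (φ n)) (fun n => t (φ n))
        (fun n => h (φ n)) (b ()) (fun n => hbp _) ?_ hab'
      rw [h1]
      exact hφt
  rcases key with h1 | ⟨hs, hle⟩
  · exact h1
  exfalso
  obtain ⟨hsum, hzero⟩ := small hb0 hs hle
  have hbub : BU (b ()) 0 2 (fun j => (b () j : ℝ)) :=
    ⟨one_lt_two, fun j => by ring, hs, by rw [hsum]; norm_num⟩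
  have hev := iso (fun n => a (φ n)) (fun n => c (φ n)) (fun n => t (φ n))
    (fun n => h (φ n)) (b ()) 0 2 (θ + 1) (fun j => (b () j : ℝ)) (fun n => hbp _)
    (fun n => (ht _).2.2) hbub hab'
  obtain ⟨n, hn⟩ := hev.exists
  have hq := ha (φ n)
  unfold IsQuot at hq
  have hn' : a (φ n) = b () := hn
  have hC : PowerSeries.mk (a (φ n)) = ((C (b () 0) : ℤ[X]) : PowerSeries ℤ) := by
    ext j
    rw [PowerSeries.coeff_mk, Polynomial.coeff_coe, Polynomial.coeff_C, hn']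
    split_ifs with hj
    · rw [hj]
    · exact hzero j hj
  rw [hC, ← Polynomial.coe_mul, Polynomial.coe_inj] at hq
  have hroot : pv (minpoly ℤ (t (φ n))).reverse ((t (φ n) : ℂ)⁻¹) = 0 := by
    obtain ⟨-, -, g, hg, -⟩ := hone (φ n)
    have h2 : pv (minpoly ℤ (t (φ n))).reverse ((t (φ n) : ℂ)⁻¹) =
        ((minpoly ℤ (t (φ n))).reverse.map (Int.castRingHom ℂ)).eval ((t (φ n) : ℂ)⁻¹) := by
      rw [eval_map]
      rfl
    have h3 : (t (φ n) : ℂ) ≠ 0 := by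
      exact_mod_cast (by linarith [ht1 (φ n)] : t (φ n) ≠ 0)
    rw [h2, hg, eval_mul, eval_sub, eval_mul, eval_one, eval_C, eval_X, mul_inv_cancel₀ h3,
      sub_self, zero_mul]
  refine (ht (φ n)).2.1 ⟨(ht _).1, (ht _).2.2, ?_⟩
  rw [← hq]
  unfold pv at hroot ⊢
  rw [map_mul, hroot, mul_zero]

end Pool.Agent.MP_b5021c_nt.H06
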